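import Pool.Agent.H482R3.EB.Cen

set_option autoImplicit false

/-! Project EB, part CEN: the final theorem on centres (helper877). -/

namespace Pool.Agent.H877R2.CENF

open Pool.Agent.H482R3 Pool.Agent.H482R3.EB
open Pool.Agent.H482R3.EA (cV cW)

theorem core (hZ : S_CENZ) (hY : S_SYSB) (hT : S_TAME) (h3 : S_AV3) (h2 : S_AV2)
    (c3 : S_CHO3) (c2 : S_CHO2) (iJ : S_ISOJ) (iA : S_ISOA)
    (n a b : ℕ) (M : CoxeterMatrix (Fin n)) (e : Fin a ⊕ Fin b ≃ Fin n)
    (hc : ∀ i j, Even (M (e (.inl i)) (e (.inr j))) ∧ M (e (.inl i)) (e (.inr j)) ≠ 2)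
    (ha : 0 < a) (hb : 0 < b) (hab : 3 ≤ b ∨ (2 ≤ a ∧ 2 ≤ b)) :
    Subgroup.center (Art M) = ⊥ := by
  have hsym : Symm (fun i j => M i j) := fun s t => M.symmetric s t
  have hoff : ∀ s t : Fin n, s ≠ t → M s t ≠ 1 := fun s t hst => M.off_diagonal s t hst
  let m : Fin n → Fin n → ℕ := fun i j => M i j
  let c := jn m e
  have hVsym : Symm (cV c) := fun s t => hsym (e (.inl s)) (e (.inl t))
  have hWsym : Symm (cW c) := fun s t => hsym (e (.inr s)) (e (.inr t))
  have hVoff : ∀ s t, s ≠ t → cV c s t ≠ 1 := by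
    intro s t hst
    refine hoff (e (.inl s)) (e (.inl t)) ?_
    intro h
    exact hst (Sum.inl_injective (e.injective h))
  have hWoff : ∀ s t, s ≠ t → cW c s t ≠ 1 := by
    intro s t hst
    refine hoff (e (.inr s)) (e (.inr t)) ?_
    intro h
    exact hst (Sum.inr_injective (e.injective h))
  have hcross : Cross c := by
    intro v w
    show m (e (.inl v)) (e (.inr w)) / 2 ≠ 1
    obtain ⟨⟨k, hk⟩, h2⟩ := hc v w
    have hk' : m (e (.inl v)) (e (.inr w)) = k + k := hk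
    have h2' : m (e (.inl v)) (e (.inr w)) ≠ 2 := h2
    omega
  have tV : Tame (cV c) := hT _ _ hVsym hVoff
  have tW : Tame (cW c) := hT _ _ hWsym hWoff
  have : Nonempty (Fin a) := ⟨⟨0, ha⟩⟩
  have : Nonempty (Fin b) := ⟨⟨0, hb⟩⟩
  have hS : SysOK c := hY _ _ inferInstance c hcross tV tW
  have hCho : Cho c hS := by
    rcases hab with h | ⟨h, h'⟩
    · refine c3 _ _ inferInstance inferInstance inferInstance c hS
        (h3 _ _ hWsym hWoff ⟨⟨0, by omega⟩, ⟨1, by omega⟩, ⟨2, by omega⟩, ?_, ?_, ?_⟩)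
      · intro hh
        simp at hh
      · intro hh
        simp at hh
      · intro hh
        simp at hh
    · refine c2 _ _ inferInstance c hS ⟨⟨0, by omega⟩, ⟨1, by omega⟩, ?_⟩ inferInstance
        (h2 _ _ tW ⟨⟨0, by omega⟩, ⟨1, by omega⟩, ?_⟩)
      · intro hh
        simp at hh
      · intro hh
        simp at hh
  have hz := hZ _ _ inferInstance c hcross hS hCho
  obtain ⟨f1⟩ := iA n m (fun i => M.diagonal i) hsym
  obtain ⟨f2⟩ := iJ a b n m e hsym (fun i j => (hc i j).1)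
  let f : Art m ≃* AJ c := f1.trans f2
  rw [Subgroup.eq_bot_iff_forall]
  intro z hzc
  have hcen : ∀ x : AJ c, f z * x = x * f z := by
    intro x
    have := Subgroup.mem_center_iff.1 hzc (f.symm x)
    have h' := congrArg f this
    rw [map_mul, map_mul, MulEquiv.apply_symm_apply] at h'
    exact h'.symm
  have h1 := hz (f z) hcen
  exact (map_eq_one_iff f f.injective).1 h1

theorem t_CENF (hS : EA.S_SPL) (hZ : S_CENZ) (hY : S_SYSB) (hT : S_TAME) (h3 : S_AV3)
    (h2 : S_AV2) (c3 : S_CHO3) (c2 : S_CHO2) (iJ : S_ISOJ) (iA : S_ISOA) : S_CENF := by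
  intro n M U hn hU hU' hc
  obtain ⟨a, b, e, ha, hb, _, _, h1, h1'⟩ := hS n U hU hU'
  have hcard : a + b = n := by
    have := Fintype.card_congr e
    simpa using this
  by_cases hab : 3 ≤ b ∨ (2 ≤ a ∧ 2 ≤ b)
  · exact core hZ hY hT h3 h2 c3 c2 iJ iA n a b M e (fun i j => hc _ (h1 i) _ (h1' j)) ha hb hab
  · have ha3 : 3 ≤ a := by omega
    refine core hZ hY hT h3 h2 c3 c2 iJ iA n b a M ((Equiv.sumComm (Fin b) (Fin a)).trans e)
      (fun i j => ?_) hb ha (Or.inl ha3)
    have h := hc _ (h1 j) _ (h1' i)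
    rw [M.symmetric] at h
    exact h

end Pool.Agent.H877R2.CENF
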